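import Pool.Agent.helper88.RL.SpecL

set_option autoImplicit false

/-!
Project RL (MP_16912e_nt), row rl:Z1 (parametrisation of the plane).
-/

namespace Pool.Agent.RL

open Finset Pool.Agent.helper3.FT Pool.Agent.T6 Pool.Agent.RF

theorem Z1_ph : ph * star ph = (-1 : OO) := by
  ext <;> simp [ph, QuadraticAlgebra.re_one, QuadraticAlgebra.im_one]

theorem Z1_r5 : r5 ^ 2 = (5 : OO) := by
  rw [pow_two]
  ext <;> simp [r5, QuadraticAlgebra.re_ofNat, QuadraticAlgebra.im_ofNat]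

theorem Z1_K1 (n k : ℤ) : (⟨n, k⟩ : OO) - star ⟨n, k⟩ = (k : OO) * r5 := by
  ext <;> (simp [r5]; try ring)

theorem Z1_K2 (n k : ℤ) : ph * star (⟨n, k⟩ : OO) - star ph * ⟨n, k⟩ = (n : OO) * r5 := by
  ext <;> (simp [r5, ph]; try ring)

theorem Z1_five : (5 : OO) ≠ 0 := by
  intro h
  have h1 := congrArg QuadraticAlgebra.re h
  rw [QuadraticAlgebra.re_ofNat, QuadraticAlgebra.re_zero] at h1
  norm_num at h1

theorem Z1 (h1 : WEU_stmt) : Z1_stmt := by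
  obtain ⟨hdom, -⟩ := h1
  intro n k v hnk hW
  obtain ⟨K, hK⟩ : ∃ K : OO, K = ⟨n, k⟩ := ⟨_, rfl⟩
  obtain ⟨a, ha⟩ : ∃ a : OO, a = va4 v := ⟨_, rfl⟩
  obtain ⟨z, hz⟩ : ∃ z : OO, z = vz4 v := ⟨_, rfl⟩
  have hR : 5 * a * K ^ 3 + 2 * star ph * z * K * star K ^ 2 - star z * star K ^ 3 = 0 := by
    rw [ha, hz, hK]
    exact hW
  rw [← ha, ← hz, ← hK]
  have hRs : 5 * star a * star K ^ 3 + 2 * ph * star z * star K * K ^ 2 - z * K ^ 3 = 0 := by
    have h := congrArg star hR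
    simp only [star_sub, star_add, star_mul', star_pow, star_star, star_zero, star_ofNat] at h
    exact h
  have hph := Z1_ph
  have key : 5 * (z * K ^ 3 * star K ^ 2 - (star a * star K ^ 5 + 2 * ph * a * K ^ 5)) = 0 := by
    linear_combination (-(star K ^ 2)) * hRs - 2 * ph * K ^ 2 * hR + 4 * z * K ^ 3 * star K ^ 2 * hph
  have h2 : z * K ^ 3 * star K ^ 2 = star a * star K ^ 5 + 2 * ph * a * K ^ 5 := by
    rcases mul_eq_zero.1 key with h | h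
    · exact absurd h Z1_five
    · exact sub_eq_zero.1 h
  refine ⟨?_, h2⟩
  have h2s : star z * star K ^ 3 * K ^ 2 = a * K ^ 5 + 2 * star ph * star a * star K ^ 5 := by
    have h := congrArg star h2
    simp only [star_add, star_mul', star_pow, star_star, star_ofNat] at h
    exact h
  have hβ : a * K ^ 5 = star K ^ 3 * (star z * K ^ 2 - 2 * star ph * star a * star K ^ 2) := by
    linear_combination -h2s
  obtain ⟨s, t, hst⟩ := hnk
  have hst' : (s : OO) * (n : OO) + (t : OO) * (k : OO) = 1 := by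
    have h := congrArg (fun i : ℤ => (i : OO)) hst
    push_cast at h
    exact h
  have hk1 : K - star K = (k : OO) * r5 := by
    rw [hK]
    exact Z1_K1 n k
  have hk2 : ph * star K - star ph * K = (n : OO) * r5 := by
    rw [hK]
    exact Z1_K2 n k
  have hr : r5 = ((t : OO) - s * star ph) * K + (s * ph - t) * star K := by
    linear_combination (-r5) * hst' - (t : OO) * hk1 - (s : OO) * hk2
  obtain ⟨x, hx⟩ : ∃ x : OO, x = (t : OO) - s * star ph := ⟨_, rfl⟩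
  obtain ⟨y, hy⟩ : ∃ y : OO, y = (s : OO) * ph - t := ⟨_, rfl⟩
  rw [← hx, ← hy] at hr
  have h9 : r5 ^ 9 = K ^ 5 * (x ^ 9 * K ^ 4 + 9 * x ^ 8 * K ^ 3 * (y * star K) + 36 * x ^ 7 * K ^ 2 * (y * star K) ^ 2 + 84 * x ^ 6 * K * (y * star K) ^ 3 + 126 * x ^ 5 * (y * star K) ^ 4) +
      star K ^ 5 * (y ^ 9 * star K ^ 4 + 9 * y ^ 8 * star K ^ 3 * (x * K) + 36 * y ^ 7 * star K ^ 2 * (x * K) ^ 2 + 84 * y ^ 6 * star K * (x * K) ^ 3 + 126 * y ^ 5 * (x * K) ^ 4) := by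
    rw [hr]
    ring
  have h10 : (3125 : OO) = r5 * r5 ^ 9 := by
    have h : r5 * r5 ^ 9 = (r5 ^ 2) ^ 5 := by ring
    rw [h, Z1_r5]
    norm_num
  obtain ⟨P, hP⟩ : ∃ P : OO, P = x ^ 9 * K ^ 4 + 9 * x ^ 8 * K ^ 3 * (y * star K) + 36 * x ^ 7 * K ^ 2 * (y * star K) ^ 2 + 84 * x ^ 6 * K * (y * star K) ^ 3 + 126 * x ^ 5 * (y * star K) ^ 4 := ⟨_, rfl⟩
  obtain ⟨Q, hQ⟩ : ∃ Q : OO, Q = y ^ 9 * star K ^ 4 + 9 * y ^ 8 * star K ^ 3 * (x * K) + 36 * y ^ 7 * star K ^ 2 * (x * K) ^ 2 + 84 * y ^ 6 * star K * (x * K) ^ 3 + 126 * y ^ 5 * (x * K) ^ 4 := ⟨_, rfl⟩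
  rw [← hP, ← hQ] at h9
  refine ⟨r5 * ((star z * K ^ 2 - 2 * star ph * star a * star K ^ 2) * P + a * star K ^ 2 * Q), ?_⟩
  rw [h10, h9]
  linear_combination (r5 * P) * hβ

end Pool.Agent.RL
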